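import Pool.Agent.Helper62.VX.Stm

/-!
# Arbitrary cyclic covers `y ^ m = ∏ a_l(x, t) ^ e_l` with big monodromy: statements

The generalisation of `Pool/Agent/Helper62/CX/Stm.lean`, `Pool/Agent/Helper62/VX/Stm.lean` from
`y ^ m = a b ^ (m - 1)` to arbitrary cyclic covers, totally ramified at all branch points and at infinity. The
eigen-summand with the index `r` consists of the forms `u dx / ∏ a_l ^ (ρ_l / m)`, `ρ_l` = the remainder of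
`r e_l` modulo `m`, `deg u < N = ∑ deg a_l - 1`. At `t = t₀` a zero of `a_(i₁)` meets a zero of `a_(i₂)`, and
`e_(i₁) + e_(i₂) = m`, so `ρ_(i₁) + ρ_(i₂) = m`. The data are those of `CX/Stm.lean` (`Cdat`), so `C_OkMap`, `C_Strong`, `C_Tr`,
`C_Van`, `C_Con`, `C_Ind`, `C_NV` remain.

With two factors `a`, `b` and `ρ = (r, m - r)` everything below is the corresponding statement of `CX` and `VX`:
`a b` is replaced by `∏ a_l` and `Lam m r a b a' b'` by `LamG ρ a a'`.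
-/

set_option autoImplicit false

open Polynomial Matrix Finset Filter NumberField IsDedekindDomain

namespace Pool.Agent.Helper62.GX

open Pool.Agent.Helper62.BM Pool.Agent.Helper62.BW Pool.Agent.Helper62.BX Pool.Agent.Helper62.CX

section fam

variable {ι : Type} [Fintype ι] [DecidableEq ι]

/-- `∑ ρ_l a'_l ∏_(j ≠ l) a_j`, `a'_l` some derivatives of the `a_l`. -/
noncomputable def LamG {R : Type} [CommRing R] (ρ : ι → ℕ) (a a' : ι → R) : R :=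
  ∑ l, (ρ l : R) * a' l * ∏ j ∈ univ.erase l, a j

variable {A : Type} [CommRing A]

/-- The family is of degrees `nd`, and smooth. -/
def GenG (nd : ι → ℕ) (a : ι → A[X][X]) : Prop :=
  (∀ l, (a l).Monic ∧ (a l).natDegree = nd l) ∧
    ((∏ l, a l).map (algebraMap A[X] (FractionRing A[X]))).Separable

/-- At `t = t₀` a zero of `a i₁` meets a zero of `a i₂` at `x₀`, and this is the only degeneration. -/
def NodeG (i₁ i₂ : ι) (a : ι → A[X][X]) (t₀ x₀ : A) (a₁ : ι → A[X]) : Prop :=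
  i₁ ≠ i₂ ∧ (∀ l, (a l).map (evalRingHom t₀) =
    if l = i₁ ∨ l = i₂ then (X - Polynomial.C x₀) * a₁ l else a₁ l) ∧
    ((∏ l, a₁ l).map (algebraMap A (FractionRing A))).Separable ∧ (∏ l, a₁ l).eval x₀ ≠ 0

/-- `m P_l ∏ a + S_l LamG ρ a (∂a/∂x) = W x ^ l LamG ρ a (∂a/∂t)`. -/
def RelG (m : ℕ) (ρ : ι → ℕ) (N : ℕ) (a : ι → A[X][X]) (W : A[X]) (P S : Fin N → A[X][X]) :
    Prop :=
  ∀ l : Fin N, (P l).natDegree < N ∧ (S l).natDegree ≤ N ∧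
    (m : A[X][X]) * P l * (∏ i, a i) + S l * LamG ρ a (fun i => derivative (a i)) =
      Polynomial.C W * X ^ (l : ℕ) * LamG ρ a (fun i => dt (a i))

/-- The data of the family. -/
def FamG (m : ℕ) (ρ nd : ι → ℕ) {N : ℕ} (a : ι → A[X][X]) (D : Cdat A N)
    (P S : Fin N → A[X][X]) : Prop :=
  GenG nd a ∧ N + 1 = ∑ l, nd l ∧ RelG m ρ N a D.W P S ∧ D.M = Mc P S

/-- The functionals `x ^ l ↦ [x ^ (p (i + 1) - 1)] (x ^ l ∏ a_j ^ q_j)`, `i < d`, `l < N`. -/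
noncomputable def YG {R : Type} [CommRing R] (p : ℕ) (q : ι → ℕ) (d N : ℕ) (a : ι → R[X]) :
    Matrix (Fin d) (Fin N) R :=
  Matrix.of fun i l => (X ^ (l : ℕ) * ∏ j, a j ^ q j).coeff (p * ((i : ℕ) + 1) - 1)

/-- The number of the regular forms. -/
def dG (m : ℕ) (ρ nd : ι → ℕ) : ℕ := (∑ l, ρ l * nd l) / m

end fam

/-! ## The curves -/

/-- G1. As `V_LocC`. At `t₀`: `A = ∏ a = (x - x₀) ^ 2 B`, `B = ∏ a₁`, `LamG(∂x) = (x - x₀) (m B + (x - x₀) V)`,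
`V = LamG ρ a₁ (a₁')`. `A` and `LamG ρ a (∂x)` are coprime over `k(t)`. The value lemma
(`Pool.Agent.Helper15.VX.value_nu`) for several factors: if `s ∈ k[[τ]]`, `s(0) = x₀`, `LamG(∂x)(s, t) = 0`, then with
`α_l = a_l(s, t)`: `m P(s, t) = d s ^ l ∑ ρ_l α_l' / α_l`. -/
def G_Loc : Prop :=
  ∀ (ι : Type) [Fintype ι] [DecidableEq ι] (A : Type) [CommRing A] [IsDomain A] [CharZero A]
    (m N : ℕ) (ρ nd : ι → ℕ) (i₁ i₂ : ι), (∀ l, 0 < ρ l ∧ ρ l < m) → ρ i₁ + ρ i₂ = m →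
    N + 1 = ∑ l, nd l → ∀ (a : ι → A[X][X]), GenG nd a → ∀ (t₀ x₀ : A) (a₁ : ι → A[X]),
    NodeG i₁ i₂ a t₀ x₀ a₁ → ∃ (w : A[X]) (P S : Fin N → A[X][X]), w.eval t₀ ≠ 0 ∧
      RelG m ρ N a ((X - Polynomial.C t₀) * w) P S

/-- G2. As `V_RkC`: `P = λ (m B + (x - x₀) V)`, `S = - m λ (x - x₀) B`, `P + S' = - λ (x - x₀) (m B' - V)`,
`m B' - V = LamG (m - ρ) a₁ (a₁')`, `m P(x₀, t₀) = ν w(t₀) x₀ ^ l`, `ν = ρ_(i₁) ord α_(i₁) + ρ_(i₂) ord α_(i₂)`. -/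
def G_Rk : Prop :=
  ∀ (ι : Type) [Fintype ι] [DecidableEq ι] (A : Type) [CommRing A] [IsDomain A] [CharZero A]
    (m N : ℕ) (ρ nd : ι → ℕ) (i₁ i₂ : ι), (∀ l, 0 < ρ l ∧ ρ l < m) → ρ i₁ + ρ i₂ = m →
    N + 1 = ∑ l, nd l → ∀ (a : ι → A[X][X]), GenG nd a → ∀ (t₀ x₀ : A) (a₁ : ι → A[X]),
    NodeG i₁ i₂ a t₀ x₀ a₁ → ∀ (w : A[X]) (P S : Fin N → A[X][X]),
      RelG m ρ N a ((X - Polynomial.C t₀) * w) P S →
    ∃ ν : ℕ, 0 < ν ∧ ∀ i l : Fin N, (m : A) ^ 2 * (∏ j, a₁ j).eval x₀ * (Mc P S i l).eval t₀ =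
      (ν : A) * w.eval t₀ * ((X - Polynomial.C x₀) *
        LamG (fun j => m - ρ j) a₁ (fun j => derivative (a₁ j))).coeff i * x₀ ^ (l : ℕ)

/-- G3. As `V_DataC` (helper38's `VX/Data.lean`). -/
def G_Data : Prop :=
  ∀ (ι : Type) [Fintype ι] [DecidableEq ι] (A : Type) [CommRing A] [IsDomain A] [CharZero A]
    (m N : ℕ) (ρ nd : ι → ℕ) (i₁ i₂ : ι), (∀ l, 0 < ρ l ∧ ρ l < m) → ρ i₁ + ρ i₂ = m →
    2 ≤ N → N + 1 = ∑ l, nd l → ∀ (a : ι → A[X][X]), GenG nd a →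
    ∀ (t₀ x₀ : A) (a₁ : ι → A[X]), NodeG i₁ i₂ a t₀ x₀ a₁ →
    ∃ (D : Cdat A N) (P S : Fin N → A[X][X]), FamG m ρ nd a D P S ∧ D.Ok

/-- G4. If all `2 ρ_l = m`, the data of `BW` for `F = ∏ a` (`V_Data`; `NodeG` gives `Node1 (∏ a) t₀ x₀ (∏ a₁)`). -/
def G_Half : Prop :=
  ∀ (ι : Type) [Fintype ι] [DecidableEq ι] (A : Type) [CommRing A] [IsDomain A] [CharZero A]
    (g : ℕ) (nd : ι → ℕ) (i₁ i₂ : ι), 1 ≤ g → 2 * g + 1 = ∑ l, nd l → ∀ (a : ι → A[X][X]),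
    GenG nd a → ∀ (t₀ x₀ : A) (a₁ : ι → A[X]), NodeG i₁ i₂ a t₀ x₀ a₁ →
    ∃ (D : Dat A g) (P S : Fin (2 * g) → A[X][X]), Fam g (∏ l, a l) D P S ∧ D.Ok

/-- G5. As `C_HWb`. -/
def G_HWb : Prop :=
  ∀ (ι : Type) [Fintype ι] [DecidableEq ι] (R : Type) [CommRing R] (p : ℕ) [Fact p.Prime]
    [CharP R p] (m d N : ℕ) (ρ : ι → ℕ), m ∣ p - 1 → (∀ l, 0 < ρ l ∧ ρ l < m) →
    ∀ (a : ι → R[X][X]) (W : R[X]) (P S : Fin N → R[X][X]),
    RelG m ρ N a W P S → ∀ (i : Fin d) (l : Fin N),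
    W * derivative (YG p (fun j => ρ j * ((p - 1) / m)) d N a i l) =
      ∑ j, YG p (fun j => ρ j * ((p - 1) / m)) d N a i j * Mc P S j l

/-- G6. As `C_HWdeg`. -/
def G_HWdeg : Prop :=
  ∀ (ι : Type) [Fintype ι] [DecidableEq ι] (R : Type) [CommRing R] (p d N T : ℕ) (q : ι → ℕ)
    (a : ι → R[X][X]), (∀ l i, ((a l).coeff i).natDegree ≤ T) → (∀ l, q l ≤ p) →
    ∀ (i : Fin d) (l : Fin N), (YG p q d N a i l).natDegree ≤ T * Fintype.card ι * p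

/-- G7. As `C_HWrank` (helper18's `CX/HR.lean`). -/
def G_HWrank : Prop :=
  ∀ (ι : Type) [Fintype ι] [DecidableEq ι] (F : Type) [Field F] (p : ℕ) [Fact p.Prime]
    [CharP F p] (m N : ℕ) (ρ nd : ι → ℕ), m ∣ p - 1 → (∀ l, 0 < ρ l ∧ ρ l < m) →
    ¬ m ∣ ∑ l, ρ l * nd l → N + 1 = ∑ l, nd l → N + 1 < p → ∀ (a : ι → F[X]),
    (∀ l, (a l).natDegree = nd l) → (∏ l, a l).Separable →
    ∀ c : Fin (dG m ρ nd) → F,
    c ᵥ* YG p (fun j => ρ j * ((p - 1) / m)) (dG m ρ nd) N a = 0 → c = 0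

/-! ## The theorems -/

/-- G8. As `C_FewG` (helper36's `CX/FewG.lean`), from `S_Step`, `C_NV`, `S_Frac`, `G_HWb`, `G_HWdeg`, `G_HWrank`. -/
def G_FewG : Prop :=
  ∀ (ι : Type) [Fintype ι] [DecidableEq ι] (m N : ℕ) (ρ nd : ι → ℕ),
    (∀ l, 0 < ρ l ∧ ρ l < m) → ¬ m ∣ ∑ l, ρ l * nd l → 2 ≤ N → dG m ρ nd < N →
    ∀ (A : Type) [CommRing A] [IsDomain A] [CharZero A] [Countable A]
    (a : ι → A[X][X]) (D : Cdat A N) (P S : Fin N → A[X][X]), FamG m ρ nd a D P S → D.Ok →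
    (D.map (algebraMap A (FractionRing A))).Strong →
    ∀ G : MvPolynomial (Fin (dG m ρ nd) × Fin (dG m ρ nd)) A[X], G ≠ 0 →
    ∀ ε : ℝ, 0 < ε → ∃ (p₀ : ℕ) (a₀ : A), a₀ ≠ 0 ∧
      ∀ (p : ℕ) [Fact p.Prime] (k : Type) [Field k] [CharP k p] (φ : A →+* k), p₀ ≤ p →
      m ∣ p - 1 → φ a₀ ≠ 0 → ∀ T : Finset k, (∀ t ∈ T, t ^ p = t ∧
        MvPolynomial.eval₂ ((evalRingHom t).comp (mapRingHom φ))
          (fun s : Fin (dG m ρ nd) × Fin (dG m ρ nd) =>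
          (YG p (fun j => ρ j * ((p - 1) / m)) (dG m ρ nd) (dG m ρ nd)
            (fun j => (a j).map (mapRingHom φ)) s.1 s.2).eval t) G = 0) →
        (T.card : ℝ) ≤ ε * p

section field

variable (k : Type) [Field k] {ι : Type} [Fintype ι] [DecidableEq ι]

/-- As `IrrC`. -/
def IrrG (m : ℕ) (ρ : ι → ℕ) (N : ℕ) (a : ι → k[X][X]) : Prop :=
  ∀ (E : Type) [Field E] [Algebra (KX k) E] [Algebra.IsAlgebraic (KX k) E] (δ : Der E),
    (∀ q : k[X], δ (algebraMap (KX k) E (Helper62.BM.ι k q)) =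
      algebraMap (KX k) E (Helper62.BM.ι k (derivative q))) →
    ∀ W : Submodule E E[X], W ≤ degreeLT E N →
    (∀ u ∈ W, ∀ P S : E[X], P.natDegree < N → S.natDegree ≤ N →
      (m : E[X]) * P * ((∏ l, a l).map ((algebraMap (KX k) E).comp (Helper62.BM.ι k))) +
        S * (LamG ρ a (fun l => derivative (a l))).map
          ((algebraMap (KX k) E).comp (Helper62.BM.ι k)) =
        u * (LamG ρ a (fun l => dt (a l))).map ((algebraMap (KX k) E).comp (Helper62.BM.ι k)) →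
      dE δ u - P - derivative S ∈ W) → W = ⊥ ∨ W = degreeLT E N

/-- As `NoBilC`. -/
def NoBilG (m : ℕ) (ρ : ι → ℕ) (N : ℕ) (a : ι → k[X][X]) : Prop :=
  ∀ (E : Type) [Field E] [Algebra (KX k) E] [Algebra.IsAlgebraic (KX k) E] (δ : Der E),
    (∀ q : k[X], δ (algebraMap (KX k) E (Helper62.BM.ι k q)) =
      algebraMap (KX k) E (Helper62.BM.ι k (derivative q))) →
    ∀ (β : E[X] →ₗ[E] E[X] →ₗ[E] E) (lam : E), (∀ u, β u u = 0) →
    (∀ u ∈ degreeLT E N, ∀ v ∈ degreeLT E N, ∀ P S P' S' : E[X],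
      P.natDegree < N → S.natDegree ≤ N → P'.natDegree < N → S'.natDegree ≤ N →
      (m : E[X]) * P * ((∏ l, a l).map ((algebraMap (KX k) E).comp (Helper62.BM.ι k))) +
        S * (LamG ρ a (fun l => derivative (a l))).map
          ((algebraMap (KX k) E).comp (Helper62.BM.ι k)) =
        u * (LamG ρ a (fun l => dt (a l))).map ((algebraMap (KX k) E).comp (Helper62.BM.ι k)) →
      (m : E[X]) * P' * ((∏ l, a l).map ((algebraMap (KX k) E).comp (Helper62.BM.ι k))) +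
        S' * (LamG ρ a (fun l => derivative (a l))).map
          ((algebraMap (KX k) E).comp (Helper62.BM.ι k)) =
        v * (LamG ρ a (fun l => dt (a l))).map ((algebraMap (KX k) E).comp (Helper62.BM.ι k)) →
      δ (β u v) = β (dE δ u - P - derivative S) v + β u (dE δ v - P' - derivative S') +
        lam * β u v) → ∀ u ∈ degreeLT E N, ∀ v ∈ degreeLT E N, β u v = 0

end field

/-- G9. As `C_Irr` and `C_Bil` (helper90's `CX/Irr.lean`). -/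
def G_Irr : Prop :=
  ∀ (ι : Type) [Fintype ι] [DecidableEq ι] (k : Type) [Field k] [CharZero k] (m N : ℕ)
    (ρ nd : ι → ℕ), (∀ l, 0 < ρ l ∧ ρ l < m) → 1 ≤ N →
    ∀ (a : ι → k[X][X]) (D : Cdat k N) (P S : Fin N → k[X][X]), FamG m ρ nd a D P S → D.Ok →
    (IrrG k m ρ N a → Irr k D.B) ∧ (Irr k D.B → NoBilG k m ρ N a → NoBil k D.B)

/-- G10. As `C_IrrHalf`. -/
def G_IrrHalf : Prop :=
  ∀ (ι : Type) [Fintype ι] [DecidableEq ι] (k : Type) [Field k] [CharZero k] (m g : ℕ)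
    (ρ : ι → ℕ), 2 ≤ m → (∀ l, 2 * ρ l = m) → 1 ≤ g →
    ∀ (a : ι → k[X][X]), IrrG k m ρ (2 * g) a → IrrF k g (∏ l, a l)

/-- G11. As helper15's `CX/FewA.lean` (`fewA`): one eigen-summand, from the data. -/
def G_FewA : Prop :=
  ∀ (ι : Type) [Fintype ι] [DecidableEq ι] (m N : ℕ) (ρ nd : ι → ℕ),
    (∀ l, 0 < ρ l ∧ ρ l < m) → ¬ m ∣ ∑ l, ρ l * nd l → 2 ≤ N → dG m ρ nd < N →
    N + 1 = ∑ l, nd l →
    ∀ (A : Type) [CommRing A] [IsDomain A] [CharZero A] [Countable A] (L : Type) [Field L]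
    [CharZero L] (θ : A →+* L), Function.Injective θ → ∀ (a : ι → A[X][X]),
    (∃ (D : Cdat A N) (P S : Fin N → A[X][X]), FamG m ρ nd a D P S ∧ D.Ok) →
    (∀ g, (∀ l, 2 * ρ l = m) → N = 2 * g → ∃ (D : Dat A g) (P S : Fin (2 * g) → A[X][X]),
      Fam g (∏ l, a l) D P S ∧ D.Ok) →
    IrrG L m ρ N (fun l => (a l).map (mapRingHom θ)) →
    ((∀ l, 2 * ρ l = m) ∨ N = 2 ∨ Odd N ∨ NoBilG L m ρ N (fun l => (a l).map (mapRingHom θ))) →
    ∀ G : MvPolynomial (Fin (dG m ρ nd) × Fin (dG m ρ nd)) A[X], G ≠ 0 →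
    ∀ ε : ℝ, 0 < ε → ∃ (p₀ : ℕ) (a₀ : A), a₀ ≠ 0 ∧
      ∀ (p : ℕ) [Fact p.Prime] (k : Type) [Field k] [CharP k p] (φ : A →+* k), p₀ ≤ p →
      m ∣ p - 1 → φ a₀ ≠ 0 → ∀ T : Finset k, (∀ t ∈ T, t ^ p = t ∧
        MvPolynomial.eval₂ ((evalRingHom t).comp (mapRingHom φ))
          (fun s : Fin (dG m ρ nd) × Fin (dG m ρ nd) =>
          (YG p (fun j => ρ j * ((p - 1) / m)) (dG m ρ nd) (dG m ρ nd)
            (fun j => (a j).map (mapRingHom φ)) s.1 s.2).eval t) G = 0) →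
        (T.card : ℝ) ≤ ε * p

section place

variable {K : Type} [Field K] [NumberField K] {ι : Type} [Fintype ι] [DecidableEq ι]

/-- The exponents of the summand with the index `r`. -/
def rho (m r : ℕ) (e : ι → ℕ) : ι → ℕ := fun l => r * e l % m

/-- As `GoodM`. -/
def GoodN (m : ℕ) (e nd : ι → ℕ) (a : ι → (𝓞 K)[X][X])
    (G : ∀ r, MvPolynomial (Fin (dG m (rho m r e) nd) × Fin (dG m (rho m r e) nd)) (𝓞 K)[X])
    (s : 𝓞 K) (v : HeightOneSpectrum (𝓞 K)) : Prop :=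
  (m : 𝓞 K) ∉ v.asIdeal ∧ (rd v (∏ l, memC (a l) s)).Separable ∧
    ∀ r, 0 < r → r < m →
      (YG (Ideal.absNorm v.asIdeal) (fun j => rho m r e j * ((Ideal.absNorm v.asIdeal - 1) / m))
        (dG m (rho m r e) nd) (dG m (rho m r e) nd) (fun l => rd v (memC (a l) s))).det ≠ 0 ∧
      MvPolynomial.eval₂ ((algebraMap (𝓞 K) v.asIdeal.ResidueField).comp (evalRingHom s))
        (fun u => YG (Ideal.absNorm v.asIdeal)
          (fun j => rho m r e j * ((Ideal.absNorm v.asIdeal - 1) / m))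
          (dG m (rho m r e) nd) (dG m (rho m r e) nd) (fun l => rd v (memC (a l) s)) u.1 u.2)
        (G r) ≠ 0

variable {q : ℕ}

/-- The same with parameters. -/
def GoodNp (m : ℕ) (e nd : ι → ℕ) (a : ι → (Rp K q)[X][X]) (φ : (Rp K q)[X])
    (G : ∀ r, MvPolynomial (Fin (dG m (rho m r e) nd) × Fin (dG m (rho m r e) nd)) (Rp K q)[X])
    (v : HeightOneSpectrum (𝓞 K)) (s : Fin q → ℕ) (t : ℕ) : Prop :=
  GoodN m e nd (fun l => (a l).map (mapRingHom (evs s)))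
    (fun r => MvPolynomial.map (mapRingHom (evs s)) (G r)) ((φ.map (evs s)).eval (t : 𝓞 K)) v

end place

/-- G12. As `V_C` (helper4's `VX/VC.lean`), from `G_Data`, `G_Half`, `G_FewA`. With `ρ = rho m r e`: `0 < ρ_l < m`,
`ρ_(i₁) + ρ_(i₂) = m`, `m` does not divide `∑ ρ_l nd_l ≡ r ∑ e_l nd_l`, `2 r = m` implies `2 ρ_l = m` for all `l` (`e_l` is
odd), and `dG m ρ nd < N`: `∑ ρ_l nd_l ≤ m + (N - 1) (m - 1) < m N` (`nd i₁, nd i₂ ≥ 1` from the node). -/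
def G_FewR : Prop :=
  ∀ (K : Type) [Field K] [NumberField K] (ι : Type) [Fintype ι] [DecidableEq ι] (q m N : ℕ)
    (e nd : ι → ℕ) (i₁ i₂ : ι), 2 ≤ m → (∀ l, Nat.Coprime (e l) m) → e i₁ + e i₂ = m → 2 ≤ N →
    N + 1 = ∑ l, nd l → Nat.Coprime (∑ l, e l * nd l) m →
    ∀ (a : ι → (Rp K q)[X][X]) (φ : (Rp K q)[X]), GenG nd a →
    (∃ (t₀ x₀ : Cl K q) (a₁ : ι → (Cl K q)[X]),
      NodeG i₁ i₂ (fun l => (a l).map (mapRingHom (algebraMap (Rp K q) (Cl K q)))) t₀ x₀ a₁) →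
    (∀ r, 0 < r → r < m → IrrG (Cl K q) m (rho m r e) N
      (fun l => (a l).map (mapRingHom (algebraMap (Rp K q) (Cl K q)))) ∧
      (2 * r = m ∨ N = 2 ∨ Odd N ∨ NoBilG (Cl K q) m (rho m r e) N
        (fun l => (a l).map (mapRingHom (algebraMap (Rp K q) (Cl K q)))))) → 1 ≤ φ.natDegree →
    ∀ G : ∀ r, MvPolynomial (Fin (dG m (rho m r e) nd) × Fin (dG m (rho m r e) nd)) (Rp K q)[X],
    (∀ r, G r ≠ 0) → FewR (fun v => m ∣ Ideal.absNorm v.asIdeal - 1) (GoodNp m e nd a φ G)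

/-- G13. As `C_Per`. -/
def G_Per : Prop :=
  ∀ (K : Type) [Field K] [NumberField K] (ι : Type) [Fintype ι] [DecidableEq ι] (q m : ℕ)
    (e nd : ι → ℕ) (a : ι → (Rp K q)[X][X]) (φ : (Rp K q)[X])
    (G : ∀ r, MvPolynomial (Fin (dG m (rho m r e) nd) × Fin (dG m (rho m r e) nd)) (Rp K q)[X]),
    Per (GoodNp m e nd a φ G)

end Pool.Agent.Helper62.GX
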