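import Pool.Agent.Helper62.VX.Main
import Pool.Agent.Helper62.GX.Per
import Pool.Agent.Helper4.GX.FewA
import Pool.Agent.Helper4.GX.FewR
import Pool.Agent.Helper12.GX.FewG
import Pool.Agent.Helper13.GX.HW
import Pool.Agent.Helper15.GX.Loc
import Pool.Agent.Helper15.GX.Rk
import Pool.Agent.Helper38.GX.Data
import Pool.Agent.Helper90.GX.Irr
import Pool.Agent.Helper93.GX.HR

/-!
# Assembly: arbitrary totally ramified cyclic covers
-/

set_option autoImplicit false

namespace Pool.Agent.Helper62.GX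

open Pool.Agent.Helper62.BM Pool.Agent.Helper62.BW Pool.Agent.Helper62.BX Pool.Agent.Helper62.CX
open Pool.Agent.Helper62.VX

theorem gFewG : G_FewG :=
  Pool.Agent.Helper12.GX.g_FewG Pool.Agent.Helper4.BM.step cNV Pool.Agent.Helper12.BM.frac
    Pool.Agent.Helper13.GX.g_HWb Pool.Agent.Helper13.GX.g_HWdeg Pool.Agent.Helper93.GX.g_HWrank

theorem gFewA : G_FewA :=
  Pool.Agent.Helper4.GX.g_FewA Pool.Agent.Helper12.CX.c_strong Pool.Agent.Helper90.CX.c_tr
    Pool.Agent.Helper90.GX.g_irr gFewG Pool.Agent.Helper90.GX.g_irrHalf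
    Pool.Agent.Helper90.BW.w_irr Pool.Agent.Helper12.BW.w_strong Pool.Agent.Helper90.BW.w_tr wFewG

theorem gData : G_Data :=
  Pool.Agent.Helper38.GX.g_Data Pool.Agent.Helper15.GX.g_Loc Pool.Agent.Helper15.GX.g_Rk

theorem gFewR : G_FewR :=
  Pool.Agent.Helper4.GX.g_FewR gData (Pool.Agent.Helper38.GX.g_Half vData) gFewA x_Spread

end Pool.Agent.Helper62.GX
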